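import Pool.Agent.Run7.h757.BP.Stm
import Pool.Agent.H373R2.T4.DLS

/-! Piece TII of project BP: the double large sieve for the sums with phases `h √(j k)`. -/

set_option autoImplicit false

namespace Run7.h462.BP

open Finset
open Pool.Agent.H469R2.NK (e norm_e e_add conj_e)
open Run7.h757.BP

/-- geometric sums -/
theorem geo_le (θ : ℝ) (hθ : θ ≠ 0) (h4 : |θ| ≤ 1 / 4) (n : ℕ) : ‖∑ p ∈ range n, e (θ * p)‖ ≤ 2 / |θ| := by
  rcases lt_or_gt_of_ne hθ with h | h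
  · have h1 : ‖∑ p ∈ range n, e (θ * p)‖ = ‖∑ p ∈ range n, e ((-θ) * p)‖ := by
      rw [← Complex.norm_conj, map_sum]
      congr 1
      refine sum_congr rfl fun p _ => ?_
      rw [conj_e]
      congr 1
      ring
    rw [h1, abs_of_neg h]
    rw [abs_of_neg h] at h4
    refine Pool.Agent.H469R2.NK.kusmin_landau_mono (fun p => (-θ) * p) n (by linarith) ?_ ?_ ?_
    · intro m _; push_cast; nlinarith
    · intro m _; push_cast; nlinarith
    · intro m _; push_cast; nlinarith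
  · rw [abs_of_pos h]
    rw [abs_of_pos h] at h4
    refine Pool.Agent.H469R2.NK.kusmin_landau_mono (fun p => θ * p) n (by linarith) ?_ ?_ ?_
    · intro m _; push_cast; nlinarith
    · intro m _; push_cast; nlinarith
    · intro m _; push_cast; nlinarith

/-- The sum over the differences. -/
theorem sum_g_le (J G : ℕ) (hJ : 1 ≤ J) (hG : 1 ≤ G) (g : ℕ → ℝ) (h1 : ∀ d, g d ≤ 4 * (G : ℝ) ^ 2)
    (h2 : ∀ d, 1 ≤ d → g d ≤ 1024 * (J : ℝ) ^ 2 / (d : ℝ) ^ 2) :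
    ∑ d ∈ range (J + 1), g d ≤ 1028 * G * (G + J) := by
  set T : ℕ := ⌈(J : ℝ) / G⌉₊ with hT
  have hG0 : (0:ℝ) < G := by exact_mod_cast hG
  have hJ0 : (0:ℝ) < J := by exact_mod_cast hJ
  have hT1 : (J : ℝ) / G ≤ T := Nat.le_ceil _
  have hT2 : (T : ℝ) < (J : ℝ) / G + 1 := Nat.ceil_lt_add_one (by positivity)
  have hT0 : 0 < T := by
    have : (0:ℝ) < T := lt_of_lt_of_le (by positivity) hT1
    exact_mod_cast this
  have hTJ : T ≤ J := by
    refine Nat.ceil_le.2 ?_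
    rw [div_le_iff₀ hG0]
    have : (1:ℝ) ≤ G := by exact_mod_cast hG
    nlinarith
  have hsplit : range (J + 1) = range (T + 1) ∪ Ioc T J := by
    ext x; simp only [mem_range, mem_union, mem_Ioc]; omega
  have hdisj : Disjoint (range (T + 1)) (Ioc T J) := by
    rw [Finset.disjoint_left]; intro x; simp only [mem_range, mem_Ioc]; omega
  rw [hsplit, sum_union hdisj]
  have e1 : ∑ d ∈ range (T + 1), g d ≤ (T + 1) * (4 * (G : ℝ) ^ 2) := by
    calc ∑ d ∈ range (T + 1), g d ≤ ∑ d ∈ range (T + 1), 4 * (G : ℝ) ^ 2 := sum_le_sum fun d _ => h1 d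
      _ = _ := by rw [sum_const, card_range]; simp
  have e2 : ∑ d ∈ Ioc T J, g d ≤ 1024 * (J : ℝ) ^ 2 / T := by
    calc ∑ d ∈ Ioc T J, g d ≤ ∑ d ∈ Ioc T J, 1024 * (J : ℝ) ^ 2 * ((d : ℝ) ^ 2)⁻¹ := by
          refine sum_le_sum fun d hd => ?_
          have := h2 d (by have := (mem_Ioc.1 hd).1; omega)
          rwa [div_eq_mul_inv] at this
      _ = 1024 * (J : ℝ) ^ 2 * ∑ d ∈ Ioc T J, ((d : ℝ) ^ 2)⁻¹ := by rw [mul_sum]
      _ ≤ 1024 * (J : ℝ) ^ 2 * ((T : ℝ)⁻¹ - (J : ℝ)⁻¹) := by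
          refine mul_le_mul_of_nonneg_left (sum_Ioc_inv_sq_le_sub hT0.ne' hTJ) (by positivity)
      _ ≤ 1024 * (J : ℝ) ^ 2 / T := by
          rw [div_eq_mul_inv]
          refine mul_le_mul_of_nonneg_left ?_ (by positivity)
          have : (0:ℝ) ≤ (J : ℝ)⁻¹ := by positivity
          linarith
  have e3 : 1024 * (J : ℝ) ^ 2 / T ≤ 1024 * J * G := by
    have hT0' : (0:ℝ) < T := by exact_mod_cast hT0
    rw [div_le_iff₀ hT0']
    rw [div_le_iff₀ hG0] at hT1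
    nlinarith
  have e4 : ((T:ℝ) + 1) * (4 * (G : ℝ) ^ 2) ≤ 4 * J * G + 8 * G ^ 2 := by
    have : (T : ℝ) * G ≤ J + G := by
      have h3 : (T:ℝ) ≤ (J : ℝ) / G + 1 := hT2.le
      calc (T : ℝ) * G ≤ ((J : ℝ) / G + 1) * G := by gcongr
        _ = J + G := by field_simp
    nlinarith
  nlinarith [mul_pos hG0 hJ0]

/-- the sum over a window in terms of the distance to a point -/
theorem sum_dist_le (J j : ℕ) (hj : j ∈ Ioc J (2 * J)) (f : ℕ → ℝ) (g : ℕ → ℝ) (hg : ∀ d, 0 ≤ g d)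
    (hf : ∀ i ∈ Ioc J (2 * J), f i ≤ g (Nat.dist i j)) :
    ∑ i ∈ Ioc J (2 * J), f i ≤ 2 * ∑ d ∈ range (J + 1), g d := by
  have hj' := mem_Ioc.1 hj
  calc ∑ i ∈ Ioc J (2 * J), f i ≤ ∑ i ∈ Ioc J (2 * J), g (Nat.dist i j) := sum_le_sum hf
    _ = ∑ d ∈ range (J + 1), ∑ i ∈ (Ioc J (2 * J)).filter (fun i => Nat.dist i j = d), g (Nat.dist i j) := by
        refine (sum_fiberwise_of_maps_to (fun i hi => ?_) _).symm
        have hi' := mem_Ioc.1 hi
        rw [mem_range, Nat.dist]; omega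
    _ ≤ ∑ d ∈ range (J + 1), 2 * g d := by
        refine sum_le_sum fun d _ => ?_
        have hc : #((Ioc J (2 * J)).filter (fun i => Nat.dist i j = d)) ≤ 2 := by
          have : (Ioc J (2 * J)).filter (fun i => Nat.dist i j = d) ⊆ {j + d, j - d} := by
            intro i hi
            rw [mem_filter, Nat.dist] at hi
            simp only [mem_insert, mem_singleton]
            omega
          exact (card_le_card this).trans card_le_two
        calc ∑ i ∈ (Ioc J (2 * J)).filter (fun i => Nat.dist i j = d), g (Nat.dist i j)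
            = ∑ i ∈ (Ioc J (2 * J)).filter (fun i => Nat.dist i j = d), g d := by
              refine sum_congr rfl fun i hi => ?_
              rw [(mem_filter.1 hi).2]
          _ = #((Ioc J (2 * J)).filter (fun i => Nat.dist i j = d)) * g d := by rw [sum_const, nsmul_eq_mul]
          _ ≤ 2 * g d := by
              refine mul_le_mul_of_nonneg_right ?_ (hg d)
              exact_mod_cast hc
    _ = _ := by rw [mul_sum]

/-- differences of square roots -/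
theorem sqrt_sub_ge (J i j : ℕ) (hJ : 1 ≤ J) (hi : i ∈ Ioc J (2 * J)) (hj : j ∈ Ioc J (2 * J)) :
    (Nat.dist i j : ℝ) / (2 * √(2 * J)) ≤ |√(i : ℝ) - √(j : ℝ)| := by
  have hi' := mem_Ioc.1 hi
  have hj' := mem_Ioc.1 hj
  have hJ0 : (0:ℝ) < J := by exact_mod_cast hJ
  have h1 : √(i:ℝ) ≤ √(2 * J) := Real.sqrt_le_sqrt (by exact_mod_cast hi'.2)
  have h2 : √(j:ℝ) ≤ √(2 * J) := Real.sqrt_le_sqrt (by exact_mod_cast hj'.2)
  have h3 : (Nat.dist i j : ℝ) = |(i:ℝ) - j| := by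
    rcases le_total i j with h | h
    · rw [Nat.dist_eq_sub_of_le h, abs_of_nonpos (by have : (i:ℝ) ≤ j := by exact_mod_cast h
                                                     linarith)]
      push_cast [h]; ring
    · rw [Nat.dist_eq_sub_of_le_right h, abs_of_nonneg (by have : (j:ℝ) ≤ i := by exact_mod_cast h
                                                           linarith)]
      push_cast [h]; ring
  have h4 : |(i:ℝ) - j| = |√(i : ℝ) - √(j : ℝ)| * (√(i : ℝ) + √(j : ℝ)) := by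
    rw [← abs_of_nonneg (by positivity : (0:ℝ) ≤ √(i : ℝ) + √(j : ℝ)), ← abs_mul]
    congr 1
    have e1 : √(i : ℝ) ^ 2 = i := Real.sq_sqrt (by positivity)
    have e2 : √(j : ℝ) ^ 2 = j := Real.sq_sqrt (by positivity)
    nlinarith
  rw [h3, h4, div_le_iff₀ (by positivity)]
  refine mul_le_mul_of_nonneg_left ?_ (abs_nonneg _)
  linarith

/-- The pair sums of the short variable. -/
theorem ny_le (J G : ℕ) (hJ : 1 ≤ J) (hG : 1 ≤ G) :
    ∑ s ∈ Ioc J (2 * J), ∑ s' ∈ Ioc J (2 * J),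
      ‖∑ p ∈ range (2 * G), e (1 / (4 * √(2 * J)) * p * (√(s:ℝ) - √(s':ℝ)))‖ ^ 2 ≤
      G * (2056 * J * (G + J)) := by
  have hJ0 : (0:ℝ) < J := by exact_mod_cast hJ
  have hG0 : (0:ℝ) < G := by exact_mod_cast hG
  have hY : (0:ℝ) < √(2 * J) := Real.sqrt_pos.2 (by positivity)
  have hY2 : √(2 * (J:ℝ)) ^ 2 = 2 * J := Real.sq_sqrt (by positivity)
  set g : ℕ → ℝ := fun d => if d = 0 then 4 * (G:ℝ) ^ 2 else min (4 * (G:ℝ) ^ 2) (1024 * (J:ℝ) ^ 2 / (d:ℝ) ^ 2) with hg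
  have hg0 : ∀ d, 0 ≤ g d := by
    intro d; rw [hg]; simp only; split_ifs
    · positivity
    · exact le_min (by positivity) (by positivity)
  have hg1 : ∀ d, g d ≤ 4 * (G:ℝ) ^ 2 := by
    intro d; rw [hg]; simp only; split_ifs
    · exact le_refl _
    · exact min_le_left _ _
  have hg2 : ∀ d, 1 ≤ d → g d ≤ 1024 * (J:ℝ) ^ 2 / (d:ℝ) ^ 2 := by
    intro d hd; rw [hg]; simp only; rw [if_neg (by omega)]; exact min_le_right _ _
  have hrow : ∀ s ∈ Ioc J (2 * J), ∑ s' ∈ Ioc J (2 * J),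
      ‖∑ p ∈ range (2 * G), e (1 / (4 * √(2 * J)) * p * (√(s:ℝ) - √(s':ℝ)))‖ ^ 2 ≤ 2 * (1028 * G * (G + J)) := by
    intro s hs
    refine (sum_dist_le J s hs _ g hg0 ?_).trans (by linarith [sum_g_le J G hJ hG g hg1 hg2])
    intro i hi
    have htriv : ‖∑ p ∈ range (2 * G), e (1 / (4 * √(2 * J)) * p * (√(s:ℝ) - √(i:ℝ)))‖ ≤ 2 * G := by
      refine (norm_sum_le _ _).trans ?_
      simp [norm_e]
    have htriv2 : ‖∑ p ∈ range (2 * G), e (1 / (4 * √(2 * J)) * p * (√(s:ℝ) - √(i:ℝ)))‖ ^ 2 ≤ 4 * (G:ℝ) ^ 2 := by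
      have := pow_le_pow_left₀ (norm_nonneg _) htriv 2
      linarith [this, (by ring : (2 * (G:ℝ)) ^ 2 = 4 * (G:ℝ) ^ 2)]
    rw [hg]; simp only
    split_ifs with h0
    · exact htriv2
    refine le_min htriv2 ?_
    have hd0 : (0:ℝ) < (Nat.dist i s : ℝ) := by exact_mod_cast Nat.pos_of_ne_zero h0
    set θ : ℝ := 1 / (4 * √(2 * J)) * (√(s:ℝ) - √(i:ℝ)) with hθ
    have hsum : ∑ p ∈ range (2 * G), e (1 / (4 * √(2 * J)) * p * (√(s:ℝ) - √(i:ℝ))) =
        ∑ p ∈ range (2 * G), e (θ * p) := by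
      refine sum_congr rfl fun p _ => ?_
      congr 1; rw [hθ]; ring
    have hsub := sqrt_sub_ge J i s hJ hi hs
    rw [abs_sub_comm] at hsub
    have hθge : (Nat.dist i s : ℝ) / (16 * J) ≤ |θ| := by
      rw [hθ, abs_mul, abs_of_pos (by positivity : (0:ℝ) < 1 / (4 * √(2 * J)))]
      calc (Nat.dist i s : ℝ) / (16 * J) = 1 / (4 * √(2 * J)) * ((Nat.dist i s : ℝ) / (2 * √(2 * J))) := by
            have hYY : √(2 * (J:ℝ)) * √(2 * (J:ℝ)) = 2 * J := by rw [← sq]; exact hY2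
            rw [div_mul_div_comm, one_mul, div_eq_div_iff (by positivity) (by positivity)]
            linear_combination (-8 * (Nat.dist i s : ℝ)) * (-hYY)
        _ ≤ _ := mul_le_mul_of_nonneg_left hsub (by positivity)
    have hθpos : 0 < |θ| := lt_of_lt_of_le (by positivity) hθge
    have hθ4 : |θ| ≤ 1 / 4 := by
      rw [hθ, abs_mul, abs_of_pos (by positivity : (0:ℝ) < 1 / (4 * √(2 * J)))]
      have hs1 : √(s:ℝ) ≤ √(2 * J) := Real.sqrt_le_sqrt (by exact_mod_cast (mem_Ioc.1 hs).2)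
      have hi1 : √(i:ℝ) ≤ √(2 * J) := Real.sqrt_le_sqrt (by exact_mod_cast (mem_Ioc.1 hi).2)
      have hab : |√(s:ℝ) - √(i:ℝ)| ≤ √(2 * J) := by
        rw [abs_le]
        constructor <;> linarith [Real.sqrt_nonneg (s:ℝ), Real.sqrt_nonneg (i:ℝ)]
      calc 1 / (4 * √(2 * J)) * |√(s:ℝ) - √(i:ℝ)| ≤ 1 / (4 * √(2 * J)) * √(2 * J) :=
            mul_le_mul_of_nonneg_left hab (by positivity)
        _ = 1 / 4 := by field_simp
    have hgeo := geo_le θ (abs_pos.1 hθpos) hθ4 (2 * G)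
    have h2 : 2 / |θ| ≤ 32 * J / (Nat.dist i s : ℝ) := by
      rw [div_le_div_iff₀ hθpos hd0]
      rw [div_le_iff₀ (by positivity)] at hθge
      nlinarith
    have h3 : ‖∑ p ∈ range (2 * G), e (1 / (4 * √(2 * J)) * p * (√(s:ℝ) - √(i:ℝ)))‖ ≤ 32 * J / (Nat.dist i s : ℝ) := by
      rw [hsum]; exact hgeo.trans h2
    have h4 := pow_le_pow_left₀ (norm_nonneg _) h3 2
    refine h4.trans (le_of_eq ?_)
    rw [div_pow]; ring
  calc _ ≤ ∑ s ∈ Ioc J (2 * J), 2 * (1028 * G * ((G:ℝ) + J)) := sum_le_sum hrow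
    _ = _ := by
        rw [sum_const, Nat.card_Ioc, nsmul_eq_mul]
        have : ((2 * J - J : ℕ) : ℝ) = J := by
          have : 2 * J - J = J := by omega
          rw [this]
        rw [this]; ring

/-- **TII** from **SPC**. -/
theorem tii (hS : S_SPC) : S_TII := by
  obtain ⟨C, hC1, hC⟩ := hS
  refine ⟨25 * (2056 * 16) * C, by linarith, ?_⟩
  intro H K J hH hK hJ α β hα hβ
  have hH0 : (0:ℝ) < H := by exact_mod_cast hH
  have hK0 : (0:ℝ) < K := by exact_mod_cast hK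
  have hJ0 : (0:ℝ) < J := by exact_mod_cast hJ
  have hJ1 : (1:ℝ) ≤ J := by exact_mod_cast hJ
  have hY : (0:ℝ) < √(2 * J) := Real.sqrt_pos.2 (by positivity)
  set G : ℕ := ⌊16 * H * √((K:ℝ) * J)⌋₊ + 1 with hG
  have hG1 : 1 ≤ G := by omega
  have hGlt : 16 * H * √((K:ℝ) * J) < G := by rw [hG]; push_cast; exact Nat.lt_floor_add_one _
  have hGle : (G:ℝ) ≤ 16 * H * √((K:ℝ) * J) + 1 := by
    rw [hG]; push_cast
    linarith [Nat.floor_le (by positivity : (0:ℝ) ≤ 16 * H * √((K:ℝ) * J))]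
  set D : ℝ := H * √((K:ℝ) / J) with hD
  have hD0 : 0 ≤ D := by positivity
  have hsqrtKJ : √(2 * (K:ℝ)) * √(2 * (J:ℝ)) = 2 * √((K:ℝ) * J) := by
    rw [← Real.sqrt_mul (by positivity)]
    rw [(by ring : 2 * (K:ℝ) * (2 * J) = 2 ^ 2 * (K * J)), Real.sqrt_mul (by positivity), Real.sqrt_sq (by norm_num)]
  set R := Ico H (2 * H) ×ˢ Ioc K (2 * K) with hR
  set S := Ioc J (2 * J) with hSS
  have hkey := Pool.Agent.H373R2.T4.dls R S (fun r : ℕ × ℕ => (r.1:ℝ) * √(r.2:ℝ)) (fun j : ℕ => √(j:ℝ))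
    (fun r => α r.1 r.2) β (√(2 * J)) hY G hG1 ?_ ?_ 1 1 (fun r _ => hα _ _) (fun s _ => hβ _) zero_le_one zero_le_one
    (C * (D * K + D * H ^ 2 + H * K + H ^ 2)) (2056 * J * (G + J)) ?_ (ny_le J G hJ hG1)
  · have hsum : ∑ h ∈ Ico H (2 * H), ∑ k ∈ Ioc K (2 * K), ∑ j ∈ Ioc J (2 * J), α h k * β j * e (h * √((j : ℝ) * k)) =
        ∑ r ∈ R, ∑ s ∈ S, α r.1 r.2 * β s * e ((r.1:ℝ) * √(r.2:ℝ) * √(s:ℝ)) := by
      rw [hR, sum_product]
      refine sum_congr rfl fun h _ => sum_congr rfl fun k _ => sum_congr rfl fun j _ => ?_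
      congr 2
      rw [Real.sqrt_mul (by positivity)]; ring
    rw [hsum]
    refine hkey.trans ?_
    have hGJ : (G:ℝ) + J ≤ 16 * (H * √((K:ℝ) * J) + J) := by
      have : (0:ℝ) ≤ H * √((K:ℝ) * J) := by positivity
      nlinarith
    have hN0 : 0 ≤ C * (D * K + D * H ^ 2 + H * K + H ^ 2) := by positivity
    calc 25 * (1 ^ 2 * (C * (D * K + D * H ^ 2 + H * K + H ^ 2)) * (1 ^ 2 * (2056 * J * (G + J))))
        = 25 * 2056 * J * ((C * (D * K + D * H ^ 2 + H * K + H ^ 2)) * (G + J)) := by ring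
      _ ≤ 25 * 2056 * J * ((C * (D * K + D * H ^ 2 + H * K + H ^ 2)) * (16 * (H * √((K:ℝ) * J) + J))) := by gcongr
      _ = _ := by ring
  · rintro ⟨h, k⟩ hr
    rw [hR, mem_product] at hr
    obtain ⟨h1, h2⟩ := hr
    have hh := (mem_Ico.1 h1).2
    have hk := (mem_Ioc.1 h2).2
    simp only at hh hk
    refine ⟨by positivity, ?_⟩
    have hh' : (h:ℝ) ≤ 2 * H := by exact_mod_cast hh.le
    have hk' : √(k:ℝ) ≤ √(2 * K) := Real.sqrt_le_sqrt (by exact_mod_cast hk)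
    calc (h:ℝ) * √(k:ℝ) * (4 * √(2 * J)) ≤ (2 * H) * √(2 * (K:ℝ)) * (4 * √(2 * (J:ℝ))) := by gcongr
      _ = 8 * H * (√(2 * (K:ℝ)) * √(2 * (J:ℝ))) := by ring
      _ = 16 * H * √((K:ℝ) * J) := by rw [hsqrtKJ]; ring
      _ < G := hGlt
  · intro s hs
    refine ⟨Real.sqrt_nonneg _, Real.sqrt_le_sqrt ?_⟩
    exact_mod_cast (mem_Ioc.1 hs).2
  · refine le_trans ?_ (hC H K D hH hK hD0)
    have hsub : (R ×ˢ R).filter (fun v : (ℕ × ℕ) × (ℕ × ℕ) =>
        |(v.1.1:ℝ) * √(v.1.2:ℝ) - (v.2.1:ℝ) * √(v.2.2:ℝ)| ≤ 1 / (4 * √(2 * J))) ⊆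
        (R ×ˢ R).filter (fun v : (ℕ × ℕ) × (ℕ × ℕ) => |(v.1.1 : ℝ) ^ 2 * v.1.2 - (v.2.1 : ℝ) ^ 2 * v.2.2| ≤ D) := by
      rintro ⟨⟨h, k⟩, ⟨h', k'⟩⟩ hv
      rw [mem_filter] at hv ⊢
      obtain ⟨hv1, hv2⟩ := hv
      refine ⟨hv1, ?_⟩
      rw [hR, mem_product, mem_product, mem_product] at hv1
      simp only [mem_Ico, mem_Ioc] at hv1 hv2 ⊢
      obtain ⟨⟨ha, hb⟩, ⟨hc, hd⟩⟩ := hv1
      have ha' : (h:ℝ) ≤ 2 * H := by exact_mod_cast ha.2.le
      have hc' : (h':ℝ) ≤ 2 * H := by exact_mod_cast hc.2.le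
      have hb' : √(k:ℝ) ≤ √(2 * K) := Real.sqrt_le_sqrt (by exact_mod_cast hb.2)
      have hd' : √(k':ℝ) ≤ √(2 * K) := Real.sqrt_le_sqrt (by exact_mod_cast hd.2)
      have e1 : √(k : ℝ) ^ 2 = k := Real.sq_sqrt (by positivity)
      have e2 : √(k' : ℝ) ^ 2 = k' := Real.sq_sqrt (by positivity)
      have hfac : (h : ℝ) ^ 2 * k - (h' : ℝ) ^ 2 * k' =
          ((h:ℝ) * √(k:ℝ) - (h':ℝ) * √(k':ℝ)) * ((h:ℝ) * √(k:ℝ) + (h':ℝ) * √(k':ℝ)) := by
        have : ((h:ℝ) * √(k:ℝ) - (h':ℝ) * √(k':ℝ)) * ((h:ℝ) * √(k:ℝ) + (h':ℝ) * √(k':ℝ)) =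
          (h:ℝ) ^ 2 * √(k:ℝ) ^ 2 - (h':ℝ) ^ 2 * √(k':ℝ) ^ 2 := by ring
        rw [this, e1, e2]
      rw [hfac, abs_mul, abs_of_nonneg (by positivity : (0:ℝ) ≤ (h:ℝ) * √(k:ℝ) + (h':ℝ) * √(k':ℝ))]
      have hs1 : (h:ℝ) * √(k:ℝ) + (h':ℝ) * √(k':ℝ) ≤ 4 * H * √(2 * (K:ℝ)) := by
        have u1 : (h:ℝ) * √(k:ℝ) ≤ (2 * H) * √(2 * (K:ℝ)) := by gcongr
        have u2 : (h':ℝ) * √(k':ℝ) ≤ (2 * H) * √(2 * (K:ℝ)) := by gcongr
        linarith
      have hDe : 1 / (4 * √(2 * (J:ℝ))) * (4 * H * √(2 * (K:ℝ))) = D := by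
        have e3 : √((K:ℝ) / J) = √(2 * (K:ℝ)) / √(2 * (J:ℝ)) := by
          rw [← Real.sqrt_div (by positivity)]
          congr 1
          field_simp
        rw [hD, e3]
        field_simp
      rw [← hDe]
      exact mul_le_mul hv2 hs1 (by positivity) (by positivity)
    exact_mod_cast card_le_card hsub

end Run7.h462.BP
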