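import Pool.Agent.Run7.h757.BP.Stm

/-! Piece SPC of project BP: the spacing of the numbers `h √k`. -/

set_option autoImplicit false

namespace Run7.h462.BP

open Finset

/-- A set of naturals in `(K, 2K]` whose members are congruent modulo `m`. -/
theorem card_congr_le {K m : ℕ} (hm : 0 < m) (S : Finset ℕ) (hS : S ⊆ Ioc K (2 * K))
    (hc : ∀ x ∈ S, ∀ y ∈ S, x % m = y % m) : (#S : ℝ) ≤ K / m + 1 := by
  have h1 : #S ≤ #(range (K / m + 1)) := by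
    refine Finset.card_le_card_of_injOn (fun x => (x - K) / m) (fun x hx => ?_) ?_
    · have := mem_Ioc.1 (hS hx)
      have h2 : (x - K) / m ≤ K / m := Nat.div_le_div_right (by omega)
      simp only [coe_range, Set.mem_Iio]
      omega
    · intro x hx y hy hxy
      have hx1 := mem_Ioc.1 (hS hx)
      have hy1 := mem_Ioc.1 (hS hy)
      have hcm := hc x hx y hy
      simp only at hxy
      have h3 : (x - K) % m = (y - K) % m := by
        have h4 : (x - K) ≡ (y - K) [MOD m] := by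
          have h5 : (x - K) + K ≡ (y - K) + K [MOD m] := by
            rw [Nat.sub_add_cancel (by omega), Nat.sub_add_cancel (by omega)]
            exact hcm
          exact Nat.ModEq.add_right_cancel' K h5
        exact h4
      have h6 := Nat.div_add_mod (x - K) m
      have h7 := Nat.div_add_mod (y - K) m
      rw [hxy, h3] at h6
      omega
  rw [card_range] at h1
  have h2 : ((K / m : ℕ) : ℝ) ≤ (K : ℝ) / m := Nat.cast_div_le
  calc (#S : ℝ) ≤ ((K / m + 1 : ℕ) : ℝ) := by exact_mod_cast h1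
    _ ≤ _ := by push_cast; linarith

/-- The number of solutions for a given pair of frequencies. -/
theorem fibre_le {H K : ℕ} {D : ℝ} (hD : 0 ≤ D) (hH : 1 ≤ H) (h h' : ℕ) (hh : h ∈ Ico H (2 * H))
    (hh' : h' ∈ Ico H (2 * H)) :
    (#((Ioc K (2 * K) ×ˢ Ioc K (2 * K)).filter
      (fun v : ℕ × ℕ => |(h : ℝ) ^ 2 * v.1 - (h' : ℝ) ^ 2 * v.2| ≤ D)) : ℝ) ≤
      (2 * D / (Nat.gcd h h' : ℝ) ^ 2 + 1) * (K * (Nat.gcd h h' : ℝ) ^ 2 / H ^ 2 + 1) := by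
  have hH' := (mem_Ico.1 hh').1
  have hHh := (mem_Ico.1 hh).1
  set g := Nat.gcd h h' with hg
  have hg0 : 0 < g := Nat.gcd_pos_of_pos_left _ (by omega)
  obtain ⟨a, ha⟩ := Nat.gcd_dvd_left h h'
  obtain ⟨b, hb⟩ := Nat.gcd_dvd_right h h'
  rw [← hg] at ha hb
  have hcop : Nat.Coprime a b := by
    have := Nat.coprime_div_gcd_div_gcd (m := h) (n := h') hg0
    rw [← hg, Nat.div_eq_of_eq_mul_right hg0 ha, Nat.div_eq_of_eq_mul_right hg0 hb] at this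
    exact this
  have hb0 : 0 < b := by
    rcases Nat.eq_zero_or_pos b with h0 | h0
    · rw [h0, mul_zero] at hb; omega
    · exact h0
  have hg0' : (0:ℝ) < g := by exact_mod_cast hg0
  set n : ℤ := ⌊D / (g:ℝ) ^ 2⌋ with hn
  have hn0 : 0 ≤ n := Int.floor_nonneg.2 (by positivity)
  set F := (Ioc K (2 * K) ×ˢ Ioc K (2 * K)).filter
      (fun v : ℕ × ℕ => |(h : ℝ) ^ 2 * v.1 - (h' : ℝ) ^ 2 * v.2| ≤ D) with hF
  -- the difference
  set dd : ℕ × ℕ → ℤ := fun v => (a:ℤ) ^ 2 * v.1 - (b:ℤ) ^ 2 * v.2 with hdd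
  have hmaps : ∀ v ∈ F, dd v ∈ Icc (-n) n := by
    intro v hv
    rw [hF, mem_filter] at hv
    have h1 := hv.2
    have h2 : (h : ℝ) ^ 2 * v.1 - (h' : ℝ) ^ 2 * v.2 = (g:ℝ) ^ 2 * ((dd v : ℤ) : ℝ) := by
      rw [hdd, ha, hb]; push_cast; ring
    rw [h2, abs_mul, abs_of_pos (by positivity : (0:ℝ) < (g:ℝ)^2)] at h1
    have h3 : |((dd v : ℤ) : ℝ)| ≤ D / (g:ℝ) ^ 2 := by
      rw [le_div_iff₀ (by positivity)]; linarith
    rw [mem_Icc, ← abs_le]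
    have h4 : ((|dd v| : ℤ) : ℝ) ≤ D / (g:ℝ) ^ 2 := by push_cast; exact h3
    exact Int.le_floor.2 h4
  have hcard : #F = ∑ d ∈ Icc (-n) n, #{v ∈ F | dd v = d} :=
    Finset.card_eq_sum_card_fiberwise (fun v hv => hmaps v hv)
  have hone : ∀ d ∈ Icc (-n) n, (#{v ∈ F | dd v = d} : ℝ) ≤ K * (g : ℝ) ^ 2 / H ^ 2 + 1 := by
    intro d _
    have h1 : #{v ∈ F | dd v = d} = #((F.filter fun v => dd v = d).image Prod.fst) := by
      rw [Finset.card_image_of_injOn]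
      intro v hv w hw hvw
      simp only [coe_filter, Set.mem_ofPred_eq] at hv hw
      have h2 : dd v = dd w := hv.2.trans hw.2.symm
      have h3 : (b:ℤ) ^ 2 * v.2 = (b:ℤ) ^ 2 * w.2 := by
        have hvw' : v.1 = w.1 := hvw
        simp only [hdd] at h2
        rw [hvw'] at h2
        linarith
      have h4 : (v.2 : ℤ) = w.2 := by
        have : ((b:ℤ) ^ 2) ≠ 0 := by positivity
        exact mul_left_cancel₀ this h3
      exact Prod.ext hvw (by exact_mod_cast h4)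
    rw [h1]
    refine (card_congr_le (K := K) (m := b ^ 2) (by positivity) _ ?_ ?_).trans ?_
    · intro x hx
      rw [mem_image] at hx
      obtain ⟨v, hv, rfl⟩ := hx
      rw [mem_filter, hF, mem_filter, mem_product] at hv
      exact hv.1.1.1
    · intro x hx y hy
      rw [mem_image] at hx hy
      obtain ⟨v, hv, rfl⟩ := hx
      obtain ⟨w, hw, rfl⟩ := hy
      rw [mem_filter] at hv hw
      have h2 : dd v = dd w := hv.2.trans hw.2.symm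
      simp only [hdd] at h2
      have h3 : ((b:ℤ) ^ 2) ∣ (a:ℤ) ^ 2 * ((w.1 : ℤ) - v.1) :=
        ⟨(w.2 : ℤ) - v.2, by linear_combination (-1 : ℤ) * h2⟩
      have h4 : IsCoprime ((b:ℤ) ^ 2) ((a:ℤ) ^ 2) :=
        (Nat.isCoprime_iff_coprime.2 hcop.symm).pow
      have h5 := h4.dvd_of_dvd_mul_left h3
      have h6 : (v.1 : ℤ) ≡ w.1 [ZMOD ((b ^ 2 : ℕ) : ℤ)] := by
        rw [Int.modEq_iff_dvd]; push_cast; exact h5
      exact (Int.natCast_modEq_iff).1 h6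
    · have h2 : (K : ℝ) / ((b ^ 2 : ℕ) : ℝ) ≤ K * (g : ℝ) ^ 2 / H ^ 2 := by
        have hbR : (0:ℝ) < b := by exact_mod_cast hb0
        have hHR : (0:ℝ) < H := by exact_mod_cast hH
        rw [div_le_div_iff₀ (by positivity) (by positivity)]
        have h3 : (H:ℝ) ≤ g * b := by exact_mod_cast (hb ▸ hH')
        push_cast
        have h4 : (H:ℝ) ^ 2 ≤ (g * b) ^ 2 := by gcongr
        calc (K:ℝ) * (H:ℝ) ^ 2 ≤ (K:ℝ) * ((g:ℝ) * b) ^ 2 := by gcongr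
          _ = (K:ℝ) * (g:ℝ) ^ 2 * (b:ℝ) ^ 2 := by ring
      linarith
  have hsum : (#F : ℝ) ≤ ∑ d ∈ Icc (-n) n, (K * (g : ℝ) ^ 2 / H ^ 2 + 1) := by
    rw [hcard]; push_cast; exact Finset.sum_le_sum hone
  refine hsum.trans ?_
  rw [Finset.sum_const, nsmul_eq_mul, Int.card_Icc]
  have h1 : (((n + 1 - -n).toNat : ℕ) : ℝ) ≤ 2 * D / (g:ℝ) ^ 2 + 1 := by
    have h2 : (((n + 1 - -n).toNat : ℕ) : ℤ) = 2 * n + 1 := by omega
    have h3 : (((n + 1 - -n).toNat : ℕ) : ℝ) = 2 * (n:ℝ) + 1 := by exact_mod_cast h2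
    rw [h3]
    have h4 : (n:ℝ) ≤ D / (g:ℝ) ^ 2 := Int.floor_le _
    have h5 : 2 * D / (g:ℝ) ^ 2 = 2 * (D / (g:ℝ) ^ 2) := by ring
    rw [h5]; linarith
  gcongr

theorem sum_gcd_sq_le {H : ℕ} (hH : 1 ≤ H) :
    ∑ h ∈ Ico H (2 * H), ∑ h' ∈ Ico H (2 * H), (Nat.gcd h h' : ℝ) ^ 2 ≤ 18 * (H:ℝ) ^ 3 := by
  have hHR : (0:ℝ) < H := by exact_mod_cast hH
  have h1 : ∀ h ∈ Ico H (2 * H), ∀ h' ∈ Ico H (2 * H), (Nat.gcd h h' : ℝ) ^ 2 ≤
      ∑ g ∈ Ico 1 (2 * H), (g:ℝ) ^ 2 * ((if g ∣ h then 1 else 0) * (if g ∣ h' then 1 else 0)) := by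
    intro h hh h' hh'
    rw [mem_Ico] at hh hh'
    have hmem : Nat.gcd h h' ∈ Ico 1 (2 * H) := by
      rw [mem_Ico]
      exact ⟨Nat.gcd_pos_of_pos_left _ (by omega),
        lt_of_le_of_lt (Nat.gcd_le_left _ (by omega)) hh.2⟩
    have h2 := Finset.single_le_sum (f := fun g : ℕ => (g:ℝ) ^ 2 *
      ((if g ∣ h then 1 else 0) * (if g ∣ h' then 1 else 0))) (fun g _ => by positivity) hmem
    simpa [Nat.gcd_dvd_left, Nat.gcd_dvd_right] using h2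
  have h2 : ∀ g ∈ Ico 1 (2 * H), (∑ h ∈ Ico H (2 * H), (if g ∣ h then (1:ℝ) else 0)) ≤
      3 * H / g := by
    intro g hg
    rw [mem_Ico] at hg
    have hgR : (0:ℝ) < g := by exact_mod_cast hg.1
    rw [← Finset.sum_filter, Finset.sum_const, nsmul_eq_mul, mul_one]
    have h3 : ((Ico H (2 * H)).filter fun h => g ∣ h).image (fun x => x + 1) ⊆ Ioc H (2 * H) := by
      intro x hx
      rw [mem_image] at hx
      obtain ⟨y, hy, rfl⟩ := hx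
      rw [mem_filter, mem_Ico] at hy
      rw [mem_Ioc]; omega
    have h4 := card_congr_le (K := H) (m := g) hg.1 _ h3 (by
      intro x hx y hy
      rw [mem_image] at hx hy
      obtain ⟨x', hx, rfl⟩ := hx
      obtain ⟨y', hy, rfl⟩ := hy
      rw [mem_filter] at hx hy
      rw [Nat.add_mod, Nat.mod_eq_zero_of_dvd hx.2, Nat.add_mod y',
        Nat.mod_eq_zero_of_dvd hy.2])
    rw [Finset.card_image_of_injective _ (add_left_injective 1)] at h4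
    refine h4.trans ?_
    have h5 : (1:ℝ) ≤ 2 * H / g := by
      rw [le_div_iff₀ hgR, one_mul]; exact_mod_cast hg.2.le
    calc (H:ℝ) / g + 1 ≤ H / g + 2 * H / g := by linarith
      _ = 3 * H / g := by ring
  calc ∑ h ∈ Ico H (2 * H), ∑ h' ∈ Ico H (2 * H), (Nat.gcd h h' : ℝ) ^ 2
      ≤ ∑ h ∈ Ico H (2 * H), ∑ h' ∈ Ico H (2 * H), ∑ g ∈ Ico 1 (2 * H),
          (g:ℝ) ^ 2 * ((if g ∣ h then 1 else 0) * (if g ∣ h' then 1 else 0)) :=
        Finset.sum_le_sum fun h hh => Finset.sum_le_sum fun h' hh' => h1 h hh h' hh'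
    _ = ∑ g ∈ Ico 1 (2 * H), (g:ℝ) ^ 2 * ((∑ h ∈ Ico H (2 * H), (if g ∣ h then (1:ℝ) else 0)) *
          (∑ h' ∈ Ico H (2 * H), (if g ∣ h' then (1:ℝ) else 0))) := by
        simp_rw [Finset.sum_mul_sum, Finset.mul_sum]
        rw [Finset.sum_congr rfl fun h _ => Finset.sum_comm]
        rw [Finset.sum_comm]
    _ ≤ ∑ g ∈ Ico 1 (2 * H), 9 * (H:ℝ) ^ 2 := by
        refine Finset.sum_le_sum fun g hg => ?_
        have hgR : (0:ℝ) < g := by exact_mod_cast (mem_Ico.1 hg).1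
        have h3 := h2 g hg
        have h4 : 0 ≤ ∑ h ∈ Ico H (2 * H), (if g ∣ h then (1:ℝ) else 0) :=
          Finset.sum_nonneg fun _ _ => by positivity
        calc (g:ℝ) ^ 2 * ((∑ h ∈ Ico H (2 * H), (if g ∣ h then (1:ℝ) else 0)) *
              (∑ h' ∈ Ico H (2 * H), (if g ∣ h' then (1:ℝ) else 0)))
            ≤ (g:ℝ) ^ 2 * ((3 * H / g) * (3 * H / g)) := by gcongr
          _ = 9 * (H:ℝ) ^ 2 := by field_simp; ring
    _ ≤ 18 * (H:ℝ) ^ 3 := by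
        rw [Finset.sum_const, nsmul_eq_mul, Nat.card_Ico]
        have h3 : ((2 * H - 1 : ℕ) : ℝ) ≤ 2 * H := by
          have : 2 * H - 1 ≤ 2 * H := by omega
          exact_mod_cast this
        calc ((2 * H - 1 : ℕ) : ℝ) * (9 * (H:ℝ) ^ 2) ≤ 2 * H * (9 * (H:ℝ) ^ 2) := by gcongr
          _ = 18 * (H:ℝ) ^ 3 := by ring

theorem spc : Run7.h757.BP.S_SPC := by
  refine ⟨18, by norm_num, fun H K D hH hK hD => ?_⟩
  have hHR : (0:ℝ) < H := by exact_mod_cast hH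
  set S := Ico H (2 * H)
  set T := Ioc K (2 * K)
  set s := ((S ×ˢ T) ×ˢ (S ×ˢ T)).filter
    (fun v : (ℕ × ℕ) × (ℕ × ℕ) => |(v.1.1 : ℝ) ^ 2 * v.1.2 - (v.2.1 : ℝ) ^ 2 * v.2.2| ≤ D) with hs
  have hcard : #s = ∑ x ∈ S ×ˢ S, #{v ∈ s | ((v.1.1, v.2.1) : ℕ × ℕ) = x} := by
    refine Finset.card_eq_sum_card_fiberwise (fun v hv => ?_)
    simp only [hs, coe_filter, mem_product, Set.mem_ofPred_eq] at hv
    simp only [coe_product, Set.mem_prod, mem_coe]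
    exact ⟨hv.1.1.1, hv.1.2.1⟩
  have hf : ∀ x ∈ S ×ˢ S, (#{v ∈ s | ((v.1.1, v.2.1) : ℕ × ℕ) = x} : ℝ) ≤
      (2 * D / (Nat.gcd x.1 x.2 : ℝ) ^ 2 + 1) * (K * (Nat.gcd x.1 x.2 : ℝ) ^ 2 / H ^ 2 + 1) := by
    intro x hx
    rw [mem_product] at hx
    refine le_trans ?_ (fibre_le (K := K) hD hH x.1 x.2 hx.1 hx.2)
    have h1 : #{v ∈ s | ((v.1.1, v.2.1) : ℕ × ℕ) = x} ≤ #((T ×ˢ T).filter
      (fun v : ℕ × ℕ => |(x.1 : ℝ) ^ 2 * v.1 - (x.2 : ℝ) ^ 2 * v.2| ≤ D)) := by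
      refine Finset.card_le_card_of_injOn (fun v => (v.1.2, v.2.2)) (fun v hv => ?_) ?_
      · simp only [hs, coe_filter, mem_filter, mem_product, Set.mem_ofPred_eq] at hv ⊢
        obtain ⟨⟨⟨⟨h1, h2⟩, h3, h4⟩, h5⟩, rfl⟩ := hv
        exact ⟨⟨h2, h4⟩, h5⟩
      · intro v hv w hw hvw
        simp only [coe_filter, Set.mem_ofPred_eq] at hv hw
        have h2 := hv.2.trans hw.2.symm
        simp only [Prod.mk.injEq] at h2 hvw
        exact Prod.ext (Prod.ext h2.1 hvw.1) (Prod.ext h2.2 hvw.2)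
    exact_mod_cast h1
  have hS : (#S : ℝ) = H := by
    simp only [S, Nat.card_Ico]
    have : 2 * H - H = H := by omega
    rw [this]
  have h1 : (#s : ℝ) ≤ ∑ x ∈ S ×ˢ S, (2 * D * K / H ^ 2 + 2 * D + K / H ^ 2 *
      (Nat.gcd x.1 x.2 : ℝ) ^ 2 + 1) := by
    rw [hcard]
    push_cast
    refine Finset.sum_le_sum fun x hx => (hf x hx).trans ?_
    rw [mem_product, mem_Ico, mem_Ico] at hx
    have hg : (1:ℝ) ≤ (Nat.gcd x.1 x.2 : ℝ) := by
      exact_mod_cast Nat.gcd_pos_of_pos_left _ (by omega : 0 < x.1)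
    have hg2 : (1:ℝ) ≤ (Nat.gcd x.1 x.2 : ℝ) ^ 2 := one_le_pow₀ hg
    have h2 : 2 * D / (Nat.gcd x.1 x.2 : ℝ) ^ 2 ≤ 2 * D := div_le_self (by positivity) hg2
    have h3 : (2 * D / (Nat.gcd x.1 x.2 : ℝ) ^ 2 + 1) * (K * (Nat.gcd x.1 x.2 : ℝ) ^ 2 / H ^ 2 + 1)
      = 2 * D * K / H ^ 2 + 2 * D / (Nat.gcd x.1 x.2 : ℝ) ^ 2 + K / H ^ 2 *
      (Nat.gcd x.1 x.2 : ℝ) ^ 2 + 1 := by field_simp; ring
    rw [h3]
    linarith
  refine h1.trans ?_
  rw [Finset.sum_add_distrib, Finset.sum_add_distrib, Finset.sum_const, Finset.sum_const,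
    ← Finset.mul_sum, Finset.sum_product, card_product, nsmul_eq_mul, nsmul_eq_mul]
  push_cast
  rw [hS]
  have h2 := sum_gcd_sq_le hH
  have h3 : (K:ℝ) / (H:ℝ) ^ 2 * ∑ h ∈ S, ∑ h' ∈ S, (Nat.gcd h h' : ℝ) ^ 2 ≤
      18 * ((H:ℝ) * K) := by
    calc (K:ℝ) / (H:ℝ) ^ 2 * ∑ h ∈ S, ∑ h' ∈ S, (Nat.gcd h h' : ℝ) ^ 2
        ≤ (K:ℝ) / (H:ℝ) ^ 2 * (18 * (H:ℝ) ^ 3) := by gcongr
      _ = 18 * ((H:ℝ) * K) := by field_simp
  have h4 : (H:ℝ) * H * (2 * D * K / H ^ 2 + 2 * D) = 2 * (D * K) + 2 * (D * H ^ 2) := by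
    field_simp
  have h5 : 0 ≤ D * K := by positivity
  have h6 : 0 ≤ D * (H:ℝ) ^ 2 := by positivity
  have h7 : (0:ℝ) ≤ (H:ℝ) ^ 2 := by positivity
  rw [h4]
  nlinarith

end Run7.h462.BP
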