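import Pool.Agent.Run7.h757.BP.Stm
import Pool.Agent.Q83.WG.SA

/-! Piece TI of project BP: the second derivative test for the phases `h √(k l)`. -/

set_option autoImplicit false

namespace Run7.h462.BP

open Finset
open Pool.Agent.H469R2.NK (e norm_e e_add conj_e)
open Pool.Agent.Q83.WG (dd)
open Run7.h757.BP

/-- the second difference of `y ↦ -√(k y)` -/
theorem s_eq (k y : ℝ) (hk : 0 < k) (hy : 0 < y) :
    2 * √(k * (y + 1)) - √(k * y) - √(k * (y + 2)) =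
      2 * k ^ 2 / ((√(k * y) + √(k * (y + 1))) * (√(k * (y + 1)) + √(k * (y + 2))) * (√(k * y) + √(k * (y + 2)))) := by
  have a0 : 0 < √(k * y) := Real.sqrt_pos.2 (by positivity)
  have b0 : 0 < √(k * (y + 1)) := Real.sqrt_pos.2 (by positivity)
  have c0 : 0 < √(k * (y + 2)) := Real.sqrt_pos.2 (by positivity)
  have a2 : √(k * y) ^ 2 = k * y := Real.sq_sqrt (by positivity)
  have b2 : √(k * (y + 1)) ^ 2 = k * (y + 1) := Real.sq_sqrt (by positivity)
  have c2 : √(k * (y + 2)) ^ 2 = k * (y + 2) := Real.sq_sqrt (by positivity)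
  set a := √(k * y)
  set b := √(k * (y + 1))
  set c := √(k * (y + 2))
  have h1 : b - a = k / (a + b) := by
    rw [eq_div_iff (by positivity)]; nlinarith
  have h2 : c - b = k / (b + c) := by
    rw [eq_div_iff (by positivity)]; nlinarith
  have h3 : c - a = 2 * k / (a + c) := by
    rw [eq_div_iff (by positivity)]; nlinarith
  calc 2 * b - a - c = (b - a) - (c - b) := by ring
    _ = k / (a + b) - k / (b + c) := by rw [h1, h2]
    _ = k * (c - a) / ((a + b) * (b + c)) := by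
        rw [div_sub_div _ _ (by positivity) (by positivity)]; congr 1; ring
    _ = _ := by
        rw [h3]; field_simp

theorem s_anti (k y z : ℝ) (hk : 0 < k) (hy : 0 < y) (hyz : y ≤ z) :
    2 * √(k * (z + 1)) - √(k * z) - √(k * (z + 2)) ≤ 2 * √(k * (y + 1)) - √(k * y) - √(k * (y + 2)) := by
  have hz : 0 < z := lt_of_lt_of_le hy hyz
  rw [s_eq k y hk hy, s_eq k z hk hz]
  have a0 : 0 < √(k * y) := Real.sqrt_pos.2 (by positivity)
  have b0 : 0 < √(k * (y + 1)) := Real.sqrt_pos.2 (by positivity)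
  have c0 : 0 < √(k * (y + 2)) := Real.sqrt_pos.2 (by positivity)
  have a1 : √(k * y) ≤ √(k * z) := Real.sqrt_le_sqrt (by gcongr)
  have b1 : √(k * (y + 1)) ≤ √(k * (z + 1)) := Real.sqrt_le_sqrt (by gcongr)
  have c1 : √(k * (y + 2)) ≤ √(k * (z + 2)) := Real.sqrt_le_sqrt (by gcongr)
  gcongr

theorem s_bounds (k y q : ℝ) (hk : 0 < k) (hy : 0 < y) (hq : 0 < q) (h1 : q ^ 4 / 2 ≤ k * y)
    (h2 : k * (y + 2) ≤ 2 * q ^ 4) :
    k ^ 2 / (12 * q ^ 6) ≤ 2 * √(k * (y + 1)) - √(k * y) - √(k * (y + 2)) ∧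
      2 * √(k * (y + 1)) - √(k * y) - √(k * (y + 2)) ≤ k ^ 2 / q ^ 6 := by
  rw [s_eq k y hk hy]
  have hlow : ∀ t, q ^ 4 / 2 ≤ t → 7 / 10 * q ^ 2 ≤ √t := fun t ht => by
    refine Real.le_sqrt_of_sq_le ?_
    have : (0:ℝ) < q ^ 4 := by positivity
    nlinarith
  have hup : ∀ t, t ≤ 2 * q ^ 4 → √t ≤ 71 / 50 * q ^ 2 := fun t ht => by
    refine Real.sqrt_le_iff.2 ⟨by positivity, ?_⟩
    have : (0:ℝ) < q ^ 4 := by positivity
    nlinarith
  have hmid : k * y ≤ k * (y + 1) := by nlinarith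
  have hmid2 : k * (y + 1) ≤ k * (y + 2) := by nlinarith
  have a1 := hlow (k * y) h1
  have b1 := hlow (k * (y + 1)) (h1.trans hmid)
  have c1 := hlow (k * (y + 2)) ((h1.trans hmid).trans hmid2)
  have a2 := hup (k * y) ((hmid.trans hmid2).trans h2)
  have b2 := hup (k * (y + 1)) (hmid2.trans h2)
  have c2 := hup (k * (y + 2)) h2
  set a := √(k * y)
  set b := √(k * (y + 1))
  set c := √(k * (y + 2))
  have hq2 : 0 < q ^ 2 := by positivity
  have a0 : 0 < a := by linarith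
  have b0 : 0 < b := by linarith
  have c0 : 0 < c := by linarith
  have u1 : (a + b) * (b + c) * (a + c) ≤ (71 / 25 * q ^ 2) * (71 / 25 * q ^ 2) * (71 / 25 * q ^ 2) := by
    gcongr <;> linarith
  have u2 : (7 / 5 * q ^ 2) * (7 / 5 * q ^ 2) * (7 / 5 * q ^ 2) ≤ (a + b) * (b + c) * (a + c) := by
    gcongr <;> linarith
  have hq6 : 0 < q ^ 6 := by positivity
  have e1 : (71 / 25 * q ^ 2) * (71 / 25 * q ^ 2) * (71 / 25 * q ^ 2) = (71 / 25) ^ 3 * q ^ 6 := by ring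
  have e2 : (7 / 5 * q ^ 2) * (7 / 5 * q ^ 2) * (7 / 5 * q ^ 2) = (7 / 5) ^ 3 * q ^ 6 := by ring
  rw [e1] at u1
  rw [e2] at u2
  have hk2 : 0 < k ^ 2 := by positivity
  constructor
  · rw [div_le_div_iff₀ (by positivity) (by positivity)]
    have : (a + b) * (b + c) * (a + c) ≤ 2 * (12 * q ^ 6) := by
      refine u1.trans ?_
      nlinarith
    nlinarith
  · rw [div_le_div_iff₀ (by positivity) (by positivity)]
    have : 2 * q ^ 6 ≤ (a + b) * (b + c) * (a + c) := by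
      refine le_trans ?_ u2
      nlinarith
    nlinarith

/-- The final numerical inequality. -/
theorem final_ineq (r q k l : ℝ) (hr : 0 < r) (hq : 0 < q) (hk : 0 < k) (hl : 1 ≤ l) (S L : ℝ) (hL0 : 0 ≤ L)
    (hL : L ≤ 2 * q ^ 4 / k)
    (h : S ^ 2 ≤ 2 * (1 + 4 * (r ^ 2 * k ^ 2 / q ^ 6) * L) * (L + 4 / (r ^ 2 * k ^ 2 / (12 * q ^ 6)) * (2 * l))) :
    S ≤ 64 * (r * q + q ^ 3 / (r * k)) * l := by
  set P := r * q with hP
  set Q := q ^ 3 / (r * k) with hQ
  have hP0 : 0 < P := by positivity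
  have hQ0 : 0 < Q := by positivity
  have hPQ : P * Q = q ^ 4 / k := by rw [hP, hQ]; field_simp
  have e1 : 4 * (r ^ 2 * k ^ 2 / q ^ 6) * L ≤ 8 * (r ^ 2 * k / q ^ 2) := by
    calc 4 * (r ^ 2 * k ^ 2 / q ^ 6) * L ≤ 4 * (r ^ 2 * k ^ 2 / q ^ 6) * (2 * q ^ 4 / k) := by gcongr
      _ = _ := by field_simp; ring
  have e2 : 4 / (r ^ 2 * k ^ 2 / (12 * q ^ 6)) * (2 * l) = 96 * Q ^ 2 * l := by
    rw [hQ]; field_simp; ring
  have e3 : L ≤ 2 * (P * Q) := by rw [hPQ]; calc L ≤ _ := hL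
      _ = _ := by ring
  rw [e2] at h
  have e4 : (r ^ 2 * k / q ^ 2) * (P * Q) = P ^ 2 := by rw [hPQ, hP]; field_simp
  have e5 : (r ^ 2 * k / q ^ 2) * Q ^ 2 = P * Q := by rw [hPQ, hQ]; field_simp
  have h2 : S ^ 2 ≤ (64 * (P + Q) * l) ^ 2 := by
    calc S ^ 2 ≤ 2 * (1 + 4 * (r ^ 2 * k ^ 2 / q ^ 6) * L) * (L + 96 * Q ^ 2 * l) := h
      _ ≤ 2 * (1 + 8 * (r ^ 2 * k / q ^ 2)) * (2 * (P * Q) + 96 * Q ^ 2 * l) := by gcongr
      _ = 2 * (2 * (P * Q) + 96 * Q ^ 2 * l + 16 * ((r ^ 2 * k / q ^ 2) * (P * Q)) +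
            768 * ((r ^ 2 * k / q ^ 2) * Q ^ 2) * l) := by ring
      _ = 2 * (2 * (P * Q) + 96 * Q ^ 2 * l + 16 * P ^ 2 + 768 * (P * Q) * l) := by rw [e4, e5]
      _ ≤ 2 * (2 * (P * Q) * l ^ 2 + 96 * Q ^ 2 * l ^ 2 + 16 * P ^ 2 * l ^ 2 + 768 * (P * Q) * l ^ 2) := by
          have l1 : l ≤ l ^ 2 := by nlinarith
          have l2 : 1 ≤ l ^ 2 := by nlinarith
          have p1 : 0 < P * Q := by positivity
          have p2 : 0 < P ^ 2 := by positivity
          have p3 : 0 < Q ^ 2 := by positivity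
          have m1 : 2 * (P * Q) ≤ 2 * (P * Q) * l ^ 2 := by nlinarith
          have m2 : 96 * Q ^ 2 * l ≤ 96 * Q ^ 2 * l ^ 2 := by nlinarith
          have m3 : 16 * P ^ 2 ≤ 16 * P ^ 2 * l ^ 2 := by nlinarith
          have m4 : 768 * (P * Q) * l ≤ 768 * (P * Q) * l ^ 2 := by nlinarith
          linarith
      _ = (1540 * (P * Q) + 192 * Q ^ 2 + 32 * P ^ 2) * l ^ 2 := by ring
      _ ≤ (4096 * (P + Q) ^ 2) * l ^ 2 := by
          refine mul_le_mul_of_nonneg_right ?_ (by positivity)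
          nlinarith [mul_pos hP0 hQ0]
      _ = _ := by ring
  exact le_of_sq_le_sq h2 (by positivity)

/-- **TI**. -/
theorem ti : S_TI := by
  refine ⟨64, by norm_num, ?_⟩
  intro X X' h k b hX hX' hh hhX hk hkX hb
  have hX0 : (0:ℝ) < X := by exact_mod_cast hX
  have hX1 : (1:ℝ) ≤ X := by exact_mod_cast hX
  have hk0 : (0:ℝ) < k := by exact_mod_cast hk
  have hh0 : (0:ℝ) < h := by exact_mod_cast hh
  set q : ℝ := (X:ℝ) ^ (1 / 4 : ℝ) with hq
  have hq0 : 0 < q := by positivity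
  have hq1 : 1 ≤ q := Real.one_le_rpow hX1 (by norm_num)
  have hq4 : q ^ 4 = X := by
    rw [hq, ← Real.rpow_natCast, ← Real.rpow_mul hX0.le]; norm_num
  have hq3 : (X:ℝ) ^ (3 / 4 : ℝ) = q ^ 3 := by
    rw [hq, ← Real.rpow_natCast, ← Real.rpow_mul hX0.le]; norm_num
  set r : ℝ := √(h:ℝ) with hr
  have hr0 : 0 < r := Real.sqrt_pos.2 hh0
  have hr2 : r ^ 2 = h := Real.sq_sqrt hh0.le
  set l : ℝ := 1 + Real.log X with hl
  have hl1 : 1 ≤ l := by rw [hl]; linarith [Real.log_nonneg hX1]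
  rw [hq3]
  have hbX : b ≤ 2 * X / k := hb.trans (Nat.div_le_div_right hX')
  have hkX1 : k ≤ X := le_trans (by nlinarith [Nat.pow_le_pow_right hk (by norm_num : 1 ≤ 4)]) hkX
  set m := X / k with hm
  have hm1 : 1 ≤ m := Nat.div_pos hkX1 hk
  by_cases hbm : b ≤ m
  · rw [Ioc_eq_empty (by omega), sum_empty, norm_zero]; positivity
  push_neg at hbm
  -- small X
  by_cases hX16 : X < 16
  · have : ‖∑ l ∈ Ioc m b, e (h * √((k * l : ℕ) : ℝ))‖ ≤ 32 := by
      refine (norm_sum_le _ _).trans ?_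
      simp only [norm_e, sum_const, Nat.card_Ioc, nsmul_eq_mul, mul_one]
      have h1 : b ≤ 2 * X := hbX.trans (Nat.div_le_self _ _)
      have h2 : b - m ≤ 32 := by omega
      exact_mod_cast h2
    refine this.trans ?_
    have hr1 : 1 ≤ r := by
      rw [hr]; exact Real.one_le_sqrt.2 (by exact_mod_cast hh)
    have : 1 ≤ r * q := by nlinarith
    have h3 : (0:ℝ) ≤ q ^ 3 / (r * k) := by positivity
    nlinarith [mul_le_mul this hl1 (by norm_num) (by linarith : (0:ℝ) ≤ r * q), mul_nonneg h3 (by linarith : (0:ℝ) ≤ l)]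
  push_neg at hX16
  have hq2 : 2 ≤ q := by
    by_contra hc
    push_neg at hc
    have : q ^ 4 < 2 ^ 4 := pow_lt_pow_left₀ hc hq0.le (by norm_num)
    rw [hq4] at this
    have h16 : (16:ℝ) ≤ X := by exact_mod_cast hX16
    norm_num at this
    linarith
  -- reversal and conjugation
  set L := b - m with hL
  have hL1 : 1 ≤ L := by omega
  set x : ℕ → ℝ := fun n => -(h * √((k:ℝ) * ((b - n : ℕ) : ℝ))) with hx
  have hsum : ‖∑ l ∈ Ioc m b, e (h * √((k * l : ℕ) : ℝ))‖ = ‖∑ n ∈ range L, e (x n)‖ := by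
    rw [← Complex.norm_conj, map_sum]
    congr 1
    refine sum_nbij' (fun l => b - l) (fun n => b - n) ?_ ?_ ?_ ?_ ?_
    · intro l hl; rw [mem_Ioc] at hl; rw [mem_range]; omega
    · intro n hn; rw [mem_range] at hn; rw [mem_Ioc]; omega
    · intro l hl; rw [mem_Ioc] at hl; omega
    · intro n hn; rw [mem_range] at hn; omega
    · intro l hl
      rw [mem_Ioc] at hl
      rw [conj_e, hx]
      simp only
      rw [Nat.sub_sub_self hl.2]
      push_cast
      rfl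
  have hdd : ∀ n, n + 2 ≤ L → ∃ y : ℕ, b - n = y + 2 ∧ m ≤ y ∧
      dd x n = h * (2 * √((k:ℝ) * ((y:ℝ) + 1)) - √((k:ℝ) * y) - √((k:ℝ) * ((y:ℝ) + 2))) := by
    intro n hn
    refine ⟨b - n - 2, by omega, by omega, ?_⟩
    obtain ⟨y, hy⟩ : ∃ y, b - n - 2 = y := ⟨_, rfl⟩
    have y0 : b - n = y + 2 := by omega
    have y1 : b - (n + 1) = y + 1 := by omega
    have y2 : b - (n + 2) = y := by omega
    rw [hy, dd, hx]
    simp only [y0, y1, y2]
    push_cast
    ring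
  have hkm : q ^ 4 / 2 ≤ k * m := by
    rw [hq4]
    have h1 : X < k * (m + 1) := by
      have := Nat.lt_mul_div_succ X hk
      rw [hm]; exact this
    have h2 : X ≤ 2 * (k * m) := by nlinarith
    have h3 : (X:ℝ) ≤ 2 * (k * m) := by exact_mod_cast h2
    linarith
  have hkb : (k:ℝ) * b ≤ 2 * q ^ 4 := by
    rw [hq4]
    have h1 : k * b ≤ 2 * X := by
      calc k * b ≤ k * (2 * X / k) := Nat.mul_le_mul_left _ hbX
        _ ≤ 2 * X := Nat.mul_div_le _ _
    exact_mod_cast h1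
  have hbd : ∀ n, n + 2 ≤ L → h * (k:ℝ) ^ 2 / (12 * q ^ 6) ≤ dd x n ∧ dd x n ≤ h * (k:ℝ) ^ 2 / q ^ 6 := by
    intro n hn
    obtain ⟨y, hy1, hy2, hy3⟩ := hdd n hn
    have hy0 : (0:ℝ) < y := by
      have : 0 < y := by omega
      exact_mod_cast this
    have h1 : q ^ 4 / 2 ≤ k * y := hkm.trans (by gcongr)
    have h2 : (k:ℝ) * (y + 2) ≤ 2 * q ^ 4 := by
      refine le_trans ?_ hkb
      have : y + 2 ≤ b := by omega
      have : (y:ℝ) + 2 ≤ b := by exact_mod_cast this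
      gcongr
    obtain ⟨s1, s2⟩ := s_bounds k y q hk0 hy0 hq0 h1 h2
    rw [hy3]
    constructor
    · calc h * (k:ℝ) ^ 2 / (12 * q ^ 6) = h * ((k:ℝ) ^ 2 / (12 * q ^ 6)) := by ring
        _ ≤ _ := mul_le_mul_of_nonneg_left s1 hh0.le
    · calc _ ≤ h * ((k:ℝ) ^ 2 / q ^ 6) := mul_le_mul_of_nonneg_left s2 hh0.le
        _ = _ := by ring
  have hLam : h * (k:ℝ) ^ 2 / q ^ 6 ≤ 1 / 4 := by
    have h1 : (h:ℝ) ≤ q ^ 2 := by
      have : (h:ℝ) ^ 2 ≤ (q ^ 2) ^ 2 := by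
        rw [← pow_mul, hq4]; exact_mod_cast hhX
      exact le_of_sq_le_sq this (by positivity)
    have h2 : (k:ℝ) ^ 2 ≤ q ^ 2 := by
      have : ((k:ℝ) ^ 2) ^ 2 ≤ (q ^ 2) ^ 2 := by
        rw [← pow_mul, ← pow_mul, hq4]; exact_mod_cast hkX
      exact le_of_sq_le_sq this (by positivity)
    rw [div_le_div_iff₀ (by positivity) (by norm_num)]
    have h4 : h * (k:ℝ) ^ 2 ≤ q ^ 2 * q ^ 2 := by gcongr
    have h5 : 4 ≤ q ^ 2 := by nlinarith
    have h6 : q ^ 6 = q ^ 2 * (q ^ 2 * q ^ 2) := by ring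
    rw [h6]
    have : 0 < q ^ 2 * q ^ 2 := by positivity
    nlinarith
  have hvdc := Pool.Agent.Q83.WG.vdc2 x L hL1 (h * (k:ℝ) ^ 2 / (12 * q ^ 6)) (h * (k:ℝ) ^ 2 / q ^ 6) (by positivity) hLam
    (fun n hn => (hbd n hn).1) (fun n hn => (hbd n hn).2) ?_ ?_
  · rw [hsum]
    have hLb : (L:ℝ) ≤ 2 * q ^ 4 / k := by
      rw [le_div_iff₀ hk0]
      have : (L:ℝ) ≤ b := by exact_mod_cast (by omega : L ≤ b)
      nlinarith
    have hlog : 1 + Real.log L ≤ 2 * l := by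
      have h1 : (L:ℝ) ≤ 2 * X := by
        have : L ≤ 2 * X := by
          have := hbX.trans (Nat.div_le_self _ _)
          omega
        exact_mod_cast this
      have hL0 : (0:ℝ) < L := by exact_mod_cast hL1
      have h2 : Real.log L ≤ Real.log (2 * X) := Real.log_le_log hL0 h1
      rw [Real.log_mul (by norm_num) hX0.ne'] at h2
      have h3 : Real.log 2 < 1 := by
        have := Real.log_two_lt_d9; linarith
      rw [hl]
      linarith [Real.log_nonneg hX1]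
    refine final_ineq r q k l hr0 hq0 hk0 hl1 _ L (by positivity) hLb ?_
    rw [hr2]
    refine hvdc.trans ?_
    gcongr
  · intro n hn
    obtain ⟨y, hy1, hy2, hy3⟩ := hdd n (by omega)
    obtain ⟨z, hz1, hz2, hz3⟩ := hdd (n + 1) (by omega)
    have hzy : y = z + 1 := by omega
    have hz0 : (0:ℝ) < z := by
      have : 0 < z := by omega
      exact_mod_cast this
    rw [hy3, hz3]
    refine mul_le_mul_of_nonneg_left ?_ hh0.le
    refine s_anti k z y hk0 hz0 ?_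
    rw [hzy]; push_cast; linarith
  · rw [div_le_div_iff₀ (by positivity) (by positivity)]
    have : 0 < h * (k:ℝ) ^ 2 * q ^ 6 := by positivity
    nlinarith

end Run7.h462.BP
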